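import Pool.Agent.W5h40.Iso.Frame

set_option autoImplicit false

open Filter Topology Set
open scoped ContDiff

namespace Pool.Agent.W5h40.Iso

/-- a function with vanishing first derivative and second derivative one at `0` -/
theorem quad_bound {u u1 : ℝ → ℝ} (hu : ∀ c, HasDerivAt u (u1 c) c) (h0 : u 0 = 0)
    (h1 : u1 0 = 0) (h2 : HasDerivAt u1 1 0) :
    ∀ᶠ c in 𝓝 (0 : ℝ), c ≠ 0 → 0 < u c ∧ u c ≤ 3 / 2 * c ^ 2 := by
  have h3 : ∀ᶠ c in 𝓝 (0 : ℝ), |u1 c - c| ≤ 1 / 2 * |c| := by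
    have := (hasDerivAt_iff_isLittleO.mp h2).def (c := 1 / 2) (by norm_num)
    filter_upwards [this] with c hc
    simpa [h1, Real.norm_eq_abs] using hc
  obtain ⟨ε, hε, hball⟩ := Metric.eventually_nhds_iff_ball.mp h3
  refine Metric.eventually_nhds_iff_ball.mpr ⟨ε, hε, fun c hc hne => ?_⟩
  rw [Metric.mem_ball, dist_zero_right, Real.norm_eq_abs] at hc
  rcases lt_or_gt_of_ne hne with hneg | hpos
  · obtain ⟨ξ, hξ, he⟩ := exists_hasDerivAt_eq_slope u u1 hneg
      (fun x _ => (hu x).continuousAt.continuousWithinAt) fun x _ => hu x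
    have hb := hball ξ (by
      rw [Metric.mem_ball, dist_zero_right, Real.norm_eq_abs, abs_of_neg hξ.2]
      rw [abs_of_neg hneg] at hc
      linarith [hξ.1])
    rw [abs_of_neg hξ.2, abs_le] at hb
    rw [h0, zero_sub, zero_sub, eq_div_iff (by linarith)] at he
    have e1 : u c = u1 ξ * c := by linarith
    rw [e1]
    constructor
    · exact mul_pos_of_neg_of_neg (by linarith [hξ.2]) hneg
    · nlinarith [hξ.1, hξ.2, hb.1]
  · obtain ⟨ξ, hξ, he⟩ := exists_hasDerivAt_eq_slope u u1 hpos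
      (fun x _ => (hu x).continuousAt.continuousWithinAt) fun x _ => hu x
    have hb := hball ξ (by
      rw [Metric.mem_ball, dist_zero_right, Real.norm_eq_abs, abs_of_pos hξ.1]
      rw [abs_of_pos hpos] at hc
      linarith [hξ.2])
    rw [abs_of_pos hξ.1, abs_le] at hb
    rw [h0, sub_zero, sub_zero, eq_div_iff (by linarith)] at he
    have e1 : u c = u1 ξ * c := by linarith
    rw [e1]
    constructor
    · exact mul_pos (by linarith [hξ.1]) hpos
    · nlinarith [hξ.1, hξ.2, hb.2]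

theorem lin_bound {v : ℝ → ℝ} (h0 : v 0 = 0) (h1 : HasDerivAt v (-1) 0) :
    ∀ᶠ c in 𝓝 (0 : ℝ), |v c + c| ≤ 1 / 2 * |c| := by
  have := (hasDerivAt_iff_isLittleO.mp h1).def (c := 1 / 2) (by norm_num)
  filter_upwards [this] with c hc
  simpa [h0, Real.norm_eq_abs] using hc

namespace NC

variable {P : ℝ → Fin 3 → ℝ}

theorem asym (h : NC P) (t M : ℝ) : ∀ᶠ c in 𝓝[>] (0 : ℝ),
    (0 < Y P (P t) (t + c) ∧ M < -(Y P (deriv P t) (t + c) / Y P (P t) (t + c))) ∧
    (0 < Y P (P t) (t - c) ∧ M < Y P (deriv P t) (t - c) / Y P (P t) (t - c)) := by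
  have hd := h.det t
  have sh : ∀ {f f' : ℝ → ℝ} (c : ℝ), HasDerivAt f (f' (t + c)) (t + c) →
      HasDerivAt (fun c => f (t + c)) (f' (t + c)) c := by
    intro f f' c hf
    exact hf.comp_const_add t c
  have hu := quad_bound (u := fun c => Y P (P t) (t + c))
    (u1 := fun c => D3 (P t) (P (t + c)) (deriv (deriv P) (t + c)))
    (fun c => sh (f' := fun s => D3 (P t) (P s) (deriv (deriv P) s)) c (h.Y1 (P t) (t + c)))
    (by simp only [add_zero]; unfold Y D3; ring) (by simp only [add_zero]; unfold D3; ring)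
    (by
      have := sh (f' := fun s => D3 (P t) (deriv P s) (deriv (deriv P) s) - cA P s * Y P (P t) s)
        0 (h.Y2 (P t) (t + 0))
      refine this.congr_deriv ?_
      simp only [add_zero]
      rw [hd]
      unfold Y D3
      ring)
  have hv := lin_bound (v := fun c => Y P (deriv P t) (t + c))
    (by simp only [add_zero]; unfold Y D3; ring)
    (by
      have := sh (f' := fun s => D3 (deriv P t) (P s) (deriv (deriv P) s))
        0 (h.Y1 (deriv P t) (t + 0))
      refine this.congr_deriv ?_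
      simp only [add_zero]
      rw [← hd]
      unfold D3
      ring)
  have hneg : Tendsto (fun c : ℝ => -c) (𝓝 0) (𝓝 0) := by
    have := (continuous_neg (G := ℝ)).tendsto 0
    simpa using this
  have hu' := hneg.eventually hu
  have hv' := hneg.eventually hv
  have hM : ∀ᶠ c in 𝓝 (0 : ℝ), 3 * |M| * c < 1 := by
    have : Tendsto (fun c : ℝ => 3 * |M| * c) (𝓝 0) (𝓝 (3 * |M| * 0)) :=
      tendsto_const_nhds.mul tendsto_id
    rw [mul_zero] at this
    exact this.eventually (gt_mem_nhds one_pos)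
  have key : ∀ c u w : ℝ, 0 < c → 0 < u → u ≤ 3 / 2 * c ^ 2 → c / 2 ≤ w → 3 * |M| * c < 1 →
      M < w / u := by
    intro c u w hc h1 h2 h3 h4
    rw [lt_div_iff₀ h1]
    have h5 : M * u ≤ |M| * (3 / 2 * c ^ 2) :=
      (mul_le_mul_of_nonneg_right (le_abs_self M) h1.le).trans
        (mul_le_mul_of_nonneg_left h2 (abs_nonneg M))
    nlinarith [abs_nonneg M]
  filter_upwards [nhdsWithin_le_nhds hu, nhdsWithin_le_nhds hv, nhdsWithin_le_nhds hu',
    nhdsWithin_le_nhds hv', nhdsWithin_le_nhds hM, self_mem_nhdsWithin] with c a1 a2 a3 a4 a5 a6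
  have a6 : 0 < c := a6
  have b1 := a1 a6.ne'
  have b3 := a3 (neg_ne_zero.mpr a6.ne')
  rw [abs_of_pos a6, abs_le] at a2
  rw [abs_neg, abs_of_pos a6, abs_le] at a4
  rw [neg_sq, ← sub_eq_add_neg] at b3
  simp only [← sub_eq_add_neg] at a4
  refine ⟨⟨b1.1, ?_⟩, b3.1, ?_⟩
  · rw [← neg_div]
    exact key c _ _ a6 b1.1 b1.2 (by linarith [a2.2]) a5
  · exact key c _ _ a6 b3.1 b3.2 (by linarith [a4.1]) a5

end NC

/-! ### normalization -/

theorem sign_const {f : ℝ → ℝ} (hf : Continuous f) (h : ∀ t, f t ≠ 0) :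
    ∃ σ : ℝ, σ * σ = 1 ∧ ∀ t, 0 < σ * f t := by
  have key : ∀ g : ℝ → ℝ, Continuous g → (∀ t, g t ≠ 0) → 0 < g 0 → ∀ t, 0 < g t := by
    intro g hg hne h0 t
    by_contra hcon
    push Not at hcon
    obtain ⟨s, -, hs⟩ := isPreconnected_univ.intermediate_value (mem_univ t) (mem_univ (0 : ℝ))
        hg.continuousOn (show (0 : ℝ) ∈ Icc (g t) (g 0) from ⟨hcon, h0.le⟩)
    exact hne s hs
  rcases lt_or_gt_of_ne (h 0) with h0 | h0
  · exact ⟨-1, by norm_num, fun t => by
      have := key (fun t => -f t) hf.neg (fun t => neg_ne_zero.mpr (h t)) (by simpa using h0) t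
      simpa using this⟩
  · exact ⟨1, by norm_num, fun t => by simpa using key f hf h h0 t⟩

/-- normalization of a lift -/
theorem exists_norm {q : ℝ → Fin 3 → ℝ} (hs : ContDiff ℝ ∞ q)
    (hdet : ∀ t, D3 (q t) (deriv q t) (deriv (deriv q) t) ≠ 0) {L : ℝ}
    (hper : ∀ t, q (t + L) = q t) :
    ∃ lam : ℝ → ℝ, ContDiff ℝ ∞ lam ∧ (∀ t, lam t ≠ 0) ∧ (∀ t, lam (t + L) = lam t) ∧
      NC (fun t => lam t • q t) := by
  have hs1 : ContDiff ℝ ∞ (deriv q) := (contDiff_infty_iff_deriv.mp hs).2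
  have hs2 : ContDiff ℝ ∞ (deriv (deriv q)) := (contDiff_infty_iff_deriv.mp hs1).2
  set D : ℝ → ℝ := fun t => D3 (q t) (deriv q t) (deriv (deriv q) t) with hD
  have hDs : ContDiff ℝ ∞ D := D3_smooth hs hs1 hs2
  obtain ⟨σ, hσ, hpos⟩ := sign_const hDs.continuous hdet
  have hσ0 : σ ≠ 0 := fun h0 => by rw [h0] at hσ; norm_num at hσ
  set lam : ℝ → ℝ := fun t => σ * (σ * D t) ^ (-(1 / 3) : ℝ) with hlam
  have hls : ContDiff ℝ ∞ lam := by
    refine contDiff_const.mul ?_
    exact (contDiff_const.mul hDs).rpow_const_of_ne fun t => (hpos t).ne'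
  have hl0 : ∀ t, lam t ≠ 0 := fun t => mul_ne_zero hσ0 (Real.rpow_pos_of_pos (hpos t) _).ne'
  have hcube : ∀ t, lam t ^ 3 * D t = 1 := by
    intro t
    have h1 : ((σ * D t) ^ (-(1 / 3) : ℝ)) ^ 3 = (σ * D t)⁻¹ := by
      rw [← Real.rpow_natCast, ← Real.rpow_mul (hpos t).le]
      norm_num
      rw [Real.rpow_neg_one]
      rw [mul_inv, mul_comm]
    have h2 : lam t ^ 3 = σ ^ 3 * (σ * D t)⁻¹ := by
      rw [hlam]; simp only; rw [mul_pow, h1]
    rw [h2]
    have h3 : D t ≠ 0 := hdet t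
    have h4 : σ ^ 3 = σ := by rw [pow_succ, pow_two, hσ, one_mul]
    rw [h4]
    field_simp
  have per : ∀ {f : ℝ → Fin 3 → ℝ}, (∀ t, f (t + L) = f t) → ∀ t, deriv f (t + L) = deriv f t := by
    intro f hf t
    rw [← deriv_comp_add_const f L t]
    congr 1
    exact funext hf
  have hDper : ∀ t, D (t + L) = D t := fun t => by
    simp only [hD]; rw [hper, per hper, per (per hper)]
  refine ⟨lam, hls, hl0, fun t => by simp only [hlam]; rw [hDper], hls.smul hs, fun t => ?_⟩
  have ld : ∀ t, HasDerivAt lam (deriv lam t) t := fun t =>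
    (hls.differentiable (by simp) t).hasDerivAt
  have ls1 : ContDiff ℝ ∞ (deriv lam) := (contDiff_infty_iff_deriv.mp hls).2
  have ld1 : ∀ t, HasDerivAt (deriv lam) (deriv (deriv lam) t) t := fun t =>
    (ls1.differentiable (by simp) t).hasDerivAt
  have qd : ∀ t, HasDerivAt q (deriv q t) t := fun t => (hs.differentiable (by simp) t).hasDerivAt
  have qd1 : ∀ t, HasDerivAt (deriv q) (deriv (deriv q) t) t := fun t =>
    (hs1.differentiable (by simp) t).hasDerivAt
  have e1 : deriv (fun t => lam t • q t) = fun t => lam t • deriv q t + deriv lam t • q t :=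
    funext fun t => ((ld t).smul (qd t)).deriv
  have e2 : deriv (deriv (fun t => lam t • q t)) = fun t => (lam t • deriv (deriv q) t +
      deriv lam t • deriv q t) + (deriv lam t • deriv q t + deriv (deriv lam) t • q t) := by
    rw [e1]
    exact funext fun t => (((ld t).smul (qd1 t)).add ((ld1 t).smul (qd t))).deriv
  rw [e2, e1]
  rw [← hcube t]
  simp only [D3, hD, Pi.add_apply, Pi.smul_apply, smul_eq_mul]
  ring

end Pool.Agent.W5h40.Iso
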