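import Pool.Agent.W5h40.Iso.Asym

set_option autoImplicit false

open Filter Topology Set
open scoped ContDiff

namespace Pool.Agent.W5h40.Iso

/-- The linear form `z ↦ det (z, a, b)`. -/
def dform (a b : Fin 3 → ℝ) : (Fin 3 → ℝ) →ₗ[ℝ] ℝ where
  toFun z := D3 z a b
  map_add' u v := by simp only [D3, Pi.add_apply]; ring
  map_smul' c v := by simp only [D3, Pi.smul_apply, smul_eq_mul, RingHom.id_apply]; ring

theorem dform_apply (a b z : Fin 3 → ℝ) : dform a b z = D3 z a b := rfl

/-- periodic solutions of `f'' = k f`, `k ≥ 0`, are constant -/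
theorem periodic_ode {f g : ℝ → ℝ} {k L : ℝ} (hk : 0 ≤ k) (hL : 0 < L)
    (hf : ∀ t, HasDerivAt f (g t) t) (hg : ∀ t, HasDerivAt g (k * f t) t)
    (hpf : ∀ t, f (t + L) = f t) (hpg : ∀ t, g (t + L) = g t) (t : ℝ) : g t = 0 := by
  -- `(f g)' = g² + k f² ≥ 0` and `f g` is periodic
  have h1 : ∀ t, HasDerivAt (fun t => f t * g t) (g t ^ 2 + k * f t ^ 2) t := fun t =>
    ((hf t).mul (hg t)).congr_deriv (by ring)
  have hmono : Monotone (fun t => f t * g t) :=
    monotone_of_deriv_nonneg (fun t => (h1 t).differentiableAt) fun t => by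
      rw [(h1 t).deriv]; positivity
  have hconst : ∀ s, f s * g s = f t * g t := by
    -- monotone and periodic
    have hp : ∀ s, ∀ n : ℕ, f (s + n * L) * g (s + n * L) = f s * g s := by
      intro s n
      induction n with
      | zero => simp
      | succ n ih =>
        rw [← ih, ← hpf (s + n * L), ← hpg (s + n * L)]
        congr 2 <;> push_cast <;> ring
    have key : ∀ s r, f s * g s ≤ f r * g r := by
      intro s r
      obtain ⟨n, hn⟩ := exists_nat_gt ((s - r) / L)
      rw [div_lt_iff₀ hL] at hn
      have := hmono (show s ≤ r + n * L by linarith)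
      simp only at this
      rwa [hp r n] at this
    exact fun s => le_antisymm (key s t) (key t s)
  have h2 : HasDerivAt (fun s => f s * g s) 0 t := by
    have : (fun s => f s * g s) = fun _ => f t * g t := funext hconst
    rw [this]
    exact hasDerivAt_const t _
  have h3 := (h1 t).unique h2
  have h4 : 0 ≤ k * f t ^ 2 := by positivity
  nlinarith [sq_nonneg (g t)]

namespace NC

variable {P : ℝ → Fin 3 → ℝ}

theorem concl (h : NC P) (hA : ∀ t, deriv (cA P) t = 0) (hB : ∀ t, cB P t = 0) {L : ℝ}
    (hL : 0 < L) (hper : ∀ t, P (t + L) = P t) :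
    ∃ x y l : (Fin 3 → ℝ) →ₗ[ℝ] ℝ, LinearIndependent ℝ ![x, y, l] ∧
      (∀ z, x z = 0 → y z = 0 → l z = 0 → z = 0) ∧ ∃ w : ℝ, 0 < w ∧
      ∀ t, x (P t) = Real.cos (w * t) ∧ y (P t) = Real.sin (w * t) ∧ l (P t) = 1 := by
  set A : ℝ := cA P 0 with hA0
  have hc : ∀ t, cA P t = A := fun t =>
    is_const_of_deriv_eq_zero (h.sA.differentiable (by simp)) hA t 0
  have h3 : ∀ t i, deriv (deriv (deriv P)) t i = -A * deriv P t i := fun t i => by
    rw [h.third, hc, hB]; ring
  have d0 : ∀ t i, HasDerivAt (fun s => P s i) (deriv P t i) t := fun t i =>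
    hasDerivAt_pi.mp (h.d0 t) i
  have d1 : ∀ t i, HasDerivAt (fun s => deriv P s i) (deriv (deriv P) t i) t := fun t i =>
    hasDerivAt_pi.mp (h.d1 t) i
  have d2 : ∀ t i, HasDerivAt (fun s => deriv (deriv P) s i) (-A * deriv P t i) t := fun t i => by
    rw [← h3]
    exact hasDerivAt_pi.mp (h.d2 t) i
  have per : ∀ {f : ℝ → Fin 3 → ℝ}, (∀ t, f (t + L) = f t) → ∀ t, deriv f (t + L) = deriv f t := by
    intro f hf t
    rw [← deriv_comp_add_const f L t]
    congr 1
    exact funext hf
  have hAp : 0 < A := by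
    by_contra hcon
    push Not at hcon
    have h2 : ∀ t i, deriv (deriv P) t i = 0 := fun t i =>
      periodic_ode (f := fun s => deriv P s i) (g := fun s => deriv (deriv P) s i) (k := -A)
        (by linarith) hL (fun t => d1 t i) (fun t => d2 t i)
        (fun t => congrFun (per hper t) i) (fun t => congrFun (per (per hper) t) i) t
    have hd := h.det 0
    unfold D3 at hd
    rw [h2, h2, h2] at hd
    norm_num at hd
  set w : ℝ := Real.sqrt A with hw
  have hw0 : 0 < w := Real.sqrt_pos.mpr hAp
  have hw2 : w ^ 2 = A := Real.sq_sqrt hAp.le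
  -- linear forms
  set a := P 0 with ha
  set b := deriv P 0 with hb
  set c := deriv (deriv P) 0 with hcc
  have hdet : D3 a b c = 1 := h.det 0
  -- for every linear form `f`, `f(P t) = f(e0) + ...`
  have sol : ∀ f : (Fin 3 → ℝ) →ₗ[ℝ] ℝ, ∀ t, f (P t) = f a + f c / A - f c / A * Real.cos (w * t) +
      f b / w * Real.sin (w * t) := by
    intro f t
    have f0 : ∀ t, HasDerivAt (fun s => f (P s)) (f (deriv P t)) t := fun t =>
      (LinearMap.toContinuousLinearMap f).hasFDerivAt.comp_hasDerivAt t (h.d0 t)
    have f1 : ∀ t, HasDerivAt (fun s => f (deriv P s)) (f (deriv (deriv P) t)) t := fun t =>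
      (LinearMap.toContinuousLinearMap f).hasFDerivAt.comp_hasDerivAt t (h.d1 t)
    have e3 : ∀ t, f (deriv (deriv (deriv P)) t) = -A * f (deriv P t) := fun t => by
      have : deriv (deriv (deriv P)) t = (-A) • deriv P t := by
        funext i; rw [h3]; rfl
      rw [this, map_smul, smul_eq_mul]
    have f2 : ∀ t, HasDerivAt (fun s => f (deriv (deriv P) s)) (-A * f (deriv P t)) t := fun t => by
      rw [← e3]
      exact (LinearMap.toContinuousLinearMap f).hasFDerivAt.comp_hasDerivAt t (h.d2 t)
    have hcos : ∀ t, HasDerivAt (fun s => Real.cos (w * s)) (-(w * Real.sin (w * t))) t := fun t => by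
      have := (Real.hasDerivAt_cos (w * t)).comp t ((hasDerivAt_id t).const_mul w)
      refine this.congr_deriv ?_
      ring
    have hsin : ∀ t, HasDerivAt (fun s => Real.sin (w * s)) (w * Real.cos (w * t)) t := fun t => by
      have := (Real.hasDerivAt_sin (w * t)).comp t ((hasDerivAt_id t).const_mul w)
      refine this.congr_deriv ?_
      ring
    -- constants of motion
    set X : ℝ → ℝ := fun s => f (deriv P s) * Real.cos (w * s) -
      f (deriv (deriv P) s) / w * Real.sin (w * s) with hX
    set Z : ℝ → ℝ := fun s => f (deriv P s) * Real.sin (w * s) +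
      f (deriv (deriv P) s) / w * Real.cos (w * s) with hZ
    have hA' : A = w * w := by rw [← hw2]; ring
    have dX : ∀ t, HasDerivAt X 0 t := fun t => by
      refine (((f1 t).mul (hcos t)).sub (((f2 t).div_const w).mul (hsin t))).congr_deriv ?_
      rw [hA']
      field_simp
      ring
    have dZ : ∀ t, HasDerivAt Z 0 t := fun t => by
      refine (((f1 t).mul (hsin t)).add (((f2 t).div_const w).mul (hcos t))).congr_deriv ?_
      rw [hA']
      field_simp
      ring
    have cX : X t = X 0 := is_const_of_deriv_eq_zero (fun t => (dX t).differentiableAt)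
      (fun t => (dX t).deriv) t 0
    have cZ : Z t = Z 0 := is_const_of_deriv_eq_zero (fun t => (dZ t).differentiableAt)
      (fun t => (dZ t).deriv) t 0
    -- `P + P''/A` is constant
    set E : ℝ → ℝ := fun s => f (P s) + f (deriv (deriv P) s) / A with hE
    have dE : ∀ t, HasDerivAt E 0 t := fun t => by
      refine ((f0 t).add ((f2 t).div_const A)).congr_deriv ?_
      field_simp
      ring
    have cE : E t = E 0 := is_const_of_deriv_eq_zero (fun t => (dE t).differentiableAt)
      (fun t => (dE t).deriv) t 0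
    simp only [hX, mul_zero, Real.cos_zero, Real.sin_zero, mul_one, sub_zero] at cX
    simp only [hZ, mul_zero, Real.cos_zero, Real.sin_zero, mul_one, zero_add] at cZ
    simp only [hE] at cE
    have sc := Real.sin_sq_add_cos_sq (w * t)
    have e2 : f (deriv (deriv P) t) / w = f c / w * Real.cos (w * t) - f b * Real.sin (w * t) := by
      linear_combination Real.cos (w * t) * cZ - Real.sin (w * t) * cX +
        (-(f (deriv (deriv P) t) / w)) * sc
    have e4 : f (deriv (deriv P) t) / A = f c / A * Real.cos (w * t) -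
        f b / w * Real.sin (w * t) := by
      have : f (deriv (deriv P) t) / A = (f (deriv (deriv P) t) / w) / w := by
        rw [hA', div_div]
      rw [this, e2, hA']
      field_simp
    linear_combination cE - e4
  -- the dual basis
  have hA' : A = w * w := by rw [← hw2]; ring
  -- f a + f c / A = coefficient of 1
  set x : (Fin 3 → ℝ) →ₗ[ℝ] ℝ := dform b c - A • dform a b with hx
  set y : (Fin 3 → ℝ) →ₗ[ℝ] ℝ := (-w) • dform a c with hy
  set l : (Fin 3 → ℝ) →ₗ[ℝ] ℝ := dform b c with hl
  have z1 : dform b c a = 1 := hdet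
  have z2 : dform b c b = 0 := by rw [dform_apply]; unfold D3; ring
  have z3 : dform b c c = 0 := by rw [dform_apply]; unfold D3; ring
  have z4 : dform a b a = 0 := by rw [dform_apply]; unfold D3; ring
  have z5 : dform a b b = 0 := by rw [dform_apply]; unfold D3; ring
  have z6 : dform a b c = 1 := by rw [dform_apply, ← hdet]; unfold D3; ring
  have z7 : dform a c a = 0 := by rw [dform_apply]; unfold D3; ring
  have z8 : dform a c b = -1 := by rw [dform_apply, ← hdet]; unfold D3; ring
  have z9 : dform a c c = 0 := by rw [dform_apply]; unfold D3; ring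
  refine ⟨x, y, l, ?_, fun z h1 h2 h3 => ?_, w, hw0, fun t => ⟨?_, ?_, ?_⟩⟩
  · rw [Fintype.linearIndependent_iff]
    intro g hg
    have ev : ∀ z : Fin 3 → ℝ, g 0 * x z + g 1 * y z + g 2 * l z = 0 := fun z => by
      have := congrArg (fun f : (Fin 3 → ℝ) →ₗ[ℝ] ℝ => f z) hg
      simpa [Fin.sum_univ_three] using this
    have v1 := ev a
    have v2 := ev b
    have v3 := ev c
    simp only [hx, hy, hl, LinearMap.sub_apply, LinearMap.smul_apply, smul_eq_mul, z1, z2, z3, z4,
      z5, z6, z7, z8, z9] at v1 v2 v3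
    have g0 : g 0 = 0 := by
      have : g 0 * A = 0 := by linarith
      exact (mul_eq_zero.mp this).resolve_right hAp.ne'
    have g1 : g 1 = 0 := by
      have : g 1 * w = 0 := by linarith
      exact (mul_eq_zero.mp this).resolve_right hw0.ne'
    have g2 : g 2 = 0 := by rw [g0, g1] at v1; linarith
    intro i
    fin_cases i
    · exact g0
    · exact g1
    · exact g2
  · have e3 : D3 z b c = 0 := h3
    have e2 : D3 z a c = 0 := by
      have : -w * D3 z a c = 0 := h2
      exact (mul_eq_zero.mp this).resolve_left (neg_ne_zero.mpr hw0.ne')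
    have e1 : D3 z a b = 0 := by
      have : D3 z b c - A * D3 z a b = 0 := h1
      rw [e3, zero_sub, neg_eq_zero] at this
      exact (mul_eq_zero.mp this).resolve_left hAp.ne'
    funext i
    have e4 := h.cramer 0 z i
    have e5 : D3 (P 0) z (deriv (deriv P) 0) = -D3 z a c := by unfold D3; ring
    have e6 : D3 (P 0) (deriv P 0) z = D3 z a b := by unfold D3; ring
    rw [e4, e5, e6, e2, e1, e3]
    simp
  · rw [sol x t]
    simp only [hx, hl, LinearMap.sub_apply, LinearMap.smul_apply, smul_eq_mul, z1, z2, z3, z4, z5,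
      z6]
    field_simp
    ring
  · rw [sol y t]
    simp only [hy, LinearMap.smul_apply, smul_eq_mul, z7, z8, z9]
    field_simp
    ring
  · rw [sol l t]
    simp only [hl, z1, z2, z3]
    ring

end NC

/-- tangent lines of the circle -/
theorem tangent_pair {w t s X Y l : ℝ} (h1 : X * Real.cos (w * t) + Y * Real.sin (w * t) = l)
    (h2 : X * Real.cos (w * s) + Y * Real.sin (w * s) = l)
    (hs : Real.sin (w * (s - t) / 2) ≠ 0) :
    (X ^ 2 + Y ^ 2) * Real.cos (w * (s - t) / 2) ^ 2 = l ^ 2 := by
  set m := w * (s + t) / 2 with hm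
  set d := w * (s - t) / 2 with hd
  have e1 : w * t = m - d := by rw [hm, hd]; ring
  have e2 : w * s = m + d := by rw [hm, hd]; ring
  rw [e1, Real.cos_sub, Real.sin_sub] at h1
  rw [e2, Real.cos_add, Real.sin_add] at h2
  have h3 : (-X * Real.sin m + Y * Real.cos m) * Real.sin d = 0 := by linarith
  have h4 : -X * Real.sin m + Y * Real.cos m = 0 := (mul_eq_zero.mp h3).resolve_right hs
  have h5 : (X * Real.cos m + Y * Real.sin m) * Real.cos d = l := by linarith
  have h6 := Real.sin_sq_add_cos_sq m
  rw [← h5]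
  have h7 : X ^ 2 + Y ^ 2 = (X * Real.cos m + Y * Real.sin m) ^ 2 +
      (-X * Real.sin m + Y * Real.cos m) ^ 2 := by
    linear_combination (-(X ^ 2 + Y ^ 2)) * h6
  rw [h7, h4]
  ring

end Pool.Agent.W5h40.Iso
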