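import Pool.Agent.W5h40.Iso.Jets

set_option autoImplicit false

open Filter Topology Set
open scoped ContDiff

namespace Pool.Agent.W5h40.Iso

/-- `3 × 3` determinant of the vectors `u, v, w` -/
def D3 (u v w : Fin 3 → ℝ) : ℝ :=
  u 0 * (v 1 * w 2 - v 2 * w 1) - u 1 * (v 0 * w 2 - v 2 * w 0) + u 2 * (v 0 * w 1 - v 1 * w 0)

theorem D3_eq (u v w : Fin 3 → ℝ) : (Matrix.of ![u, v, w]).det = D3 u v w := by
  rw [Matrix.det_fin_three]
  simp only [Matrix.of_apply, Matrix.cons_val_zero, Matrix.cons_val_one, Matrix.cons_val, D3]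
  ring

theorem D3_hasDeriv {u v w : ℝ → Fin 3 → ℝ} {u' v' w' : Fin 3 → ℝ} {t : ℝ}
    (hu : HasDerivAt u u' t) (hv : HasDerivAt v v' t) (hw : HasDerivAt w w' t) :
    HasDerivAt (fun s => D3 (u s) (v s) (w s))
      (D3 u' (v t) (w t) + D3 (u t) v' (w t) + D3 (u t) (v t) w') t := by
  have hu := fun i => hasDerivAt_pi.mp hu i
  have hv := fun i => hasDerivAt_pi.mp hv i
  have hw := fun i => hasDerivAt_pi.mp hw i
  have := (((hu 0).mul (((hv 1).mul (hw 2)).sub ((hv 2).mul (hw 1)))).sub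
    ((hu 1).mul (((hv 0).mul (hw 2)).sub ((hv 2).mul (hw 0))))).add
    ((hu 2).mul (((hv 0).mul (hw 1)).sub ((hv 1).mul (hw 0))))
  refine this.congr_deriv ?_
  simp only [D3, Pi.mul_apply, Pi.sub_apply]
  ring

theorem D3_smooth {u v w : ℝ → Fin 3 → ℝ} (hu : ContDiff ℝ ∞ u) (hv : ContDiff ℝ ∞ v)
    (hw : ContDiff ℝ ∞ w) : ContDiff ℝ ∞ (fun s => D3 (u s) (v s) (w s)) := by
  have hu := fun i => contDiff_pi.mp hu i
  have hv := fun i => contDiff_pi.mp hv i
  have hw := fun i => contDiff_pi.mp hw i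
  exact (((hu 0).mul (((hv 1).mul (hw 2)).sub ((hv 2).mul (hw 1)))).sub
    ((hu 1).mul (((hv 0).mul (hw 2)).sub ((hv 2).mul (hw 0))))).add
    ((hu 2).mul (((hv 0).mul (hw 1)).sub ((hv 1).mul (hw 0))))

/-- smooth normalized curve: `det (P, P', P'') = 1` -/
structure NC (P : ℝ → Fin 3 → ℝ) : Prop where
  smooth : ContDiff ℝ ∞ P
  det : ∀ t, D3 (P t) (deriv P t) (deriv (deriv P) t) = 1

namespace NC

variable {P : ℝ → Fin 3 → ℝ}

theorem s1 (h : NC P) : ContDiff ℝ ∞ (deriv P) := (contDiff_infty_iff_deriv.mp h.smooth).2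
theorem s2 (h : NC P) : ContDiff ℝ ∞ (deriv (deriv P)) := (contDiff_infty_iff_deriv.mp h.s1).2
theorem s3 (h : NC P) : ContDiff ℝ ∞ (deriv (deriv (deriv P))) :=
  (contDiff_infty_iff_deriv.mp h.s2).2

theorem d0 (h : NC P) (t : ℝ) : HasDerivAt P (deriv P t) t :=
  (h.smooth.differentiable (by simp) t).hasDerivAt
theorem d1 (h : NC P) (t : ℝ) : HasDerivAt (deriv P) (deriv (deriv P) t) t :=
  (h.s1.differentiable (by simp) t).hasDerivAt
theorem d2 (h : NC P) (t : ℝ) : HasDerivAt (deriv (deriv P)) (deriv (deriv (deriv P)) t) t :=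
  (h.s2.differentiable (by simp) t).hasDerivAt

end NC

/-- the coefficient `A` of `P''' = - A P' - B P` -/
noncomputable def cA (P : ℝ → Fin 3 → ℝ) (t : ℝ) : ℝ :=
  -D3 (P t) (deriv (deriv (deriv P)) t) (deriv (deriv P) t)

/-- the coefficient `B` of `P''' = - A P' - B P` -/
noncomputable def cB (P : ℝ → Fin 3 → ℝ) (t : ℝ) : ℝ :=
  -D3 (deriv (deriv (deriv P)) t) (deriv P t) (deriv (deriv P) t)

/-- `C = A' - B` -/
noncomputable def cC (P : ℝ → Fin 3 → ℝ) (t : ℝ) : ℝ := deriv (cA P) t - cB P t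

namespace NC

variable {P : ℝ → Fin 3 → ℝ}

theorem sA (h : NC P) : ContDiff ℝ ∞ (cA P) := (D3_smooth h.smooth h.s3 h.s2).neg
theorem sB (h : NC P) : ContDiff ℝ ∞ (cB P) := (D3_smooth h.s3 h.s1 h.s2).neg
theorem sA' (h : NC P) : ContDiff ℝ ∞ (deriv (cA P)) := (contDiff_infty_iff_deriv.mp h.sA).2
theorem sC (h : NC P) : ContDiff ℝ ∞ (cC P) := h.sA'.sub h.sB

theorem det3' (h : NC P) (t : ℝ) :
    D3 (P t) (deriv P t) (deriv (deriv (deriv P)) t) = 0 := by
  have h1 := D3_hasDeriv (h.d0 t) (h.d1 t) (h.d2 t)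
  have h2 : (fun s => D3 (P s) (deriv P s) (deriv (deriv P) s)) = fun _ => (1 : ℝ) :=
    funext h.det
  rw [h2] at h1
  have h3 := h1.unique (hasDerivAt_const t (1 : ℝ))
  have e1 : D3 (deriv P t) (deriv P t) (deriv (deriv P) t) = 0 := by unfold D3; ring
  have e2 : D3 (P t) (deriv (deriv P) t) (deriv (deriv P) t) = 0 := by unfold D3; ring
  rw [e1, e2] at h3
  linarith

/-- Cramer -/
theorem cramer (h : NC P) (t : ℝ) (z : Fin 3 → ℝ) (i : Fin 3) :
    z i = D3 z (deriv P t) (deriv (deriv P) t) * P t i +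
      D3 (P t) z (deriv (deriv P) t) * deriv P t i +
      D3 (P t) (deriv P t) z * deriv (deriv P) t i := by
  have hd := h.det t
  have : z i * D3 (P t) (deriv P t) (deriv (deriv P) t) =
      D3 z (deriv P t) (deriv (deriv P) t) * P t i +
      D3 (P t) z (deriv (deriv P) t) * deriv P t i +
      D3 (P t) (deriv P t) z * deriv (deriv P) t i := by
    unfold D3
    fin_cases i <;> simp <;> ring
  rw [hd, mul_one] at this
  exact this

theorem third (h : NC P) (t : ℝ) (i : Fin 3) :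
    deriv (deriv (deriv P)) t i = -cA P t * deriv P t i - cB P t * P t i := by
  have := h.cramer t (deriv (deriv (deriv P)) t) i
  rw [h.det3'] at this
  unfold cA cB
  linarith

/-- `y(s) = det (z, P(s), P'(s))` -/
noncomputable def Y (P : ℝ → Fin 3 → ℝ) (z : Fin 3 → ℝ) (s : ℝ) : ℝ := D3 z (P s) (deriv P s)

theorem sY (h : NC P) (z : Fin 3 → ℝ) : ContDiff ℝ ∞ (Y P z) :=
  D3_smooth contDiff_const h.smooth h.s1

theorem Y1 (h : NC P) (z : Fin 3 → ℝ) (s : ℝ) :
    HasDerivAt (Y P z) (D3 z (P s) (deriv (deriv P) s)) s := by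
  refine (D3_hasDeriv (hasDerivAt_const s z) (h.d0 s) (h.d1 s)).congr_deriv ?_
  simp only [D3, Pi.zero_apply]
  ring

theorem Y2 (h : NC P) (z : Fin 3 → ℝ) (s : ℝ) :
    HasDerivAt (fun s => D3 z (P s) (deriv (deriv P) s))
      (D3 z (deriv P s) (deriv (deriv P) s) - cA P s * Y P z s) s := by
  refine (D3_hasDeriv (hasDerivAt_const s z) (h.d0 s) (h.d2 s)).congr_deriv ?_
  simp only [D3, Pi.zero_apply, Y, h.third]
  ring

theorem Y3 (h : NC P) (z : Fin 3 → ℝ) (s : ℝ) :
    HasDerivAt (fun s => D3 z (deriv P s) (deriv (deriv P) s) - cA P s * Y P z s)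
      (-(cA P s * D3 z (P s) (deriv (deriv P) s) + cC P s * Y P z s)) s := by
  have hA : HasDerivAt (cA P) (deriv (cA P) s) s :=
    (h.sA.differentiable (by simp) s).hasDerivAt
  refine ((D3_hasDeriv (hasDerivAt_const s z) (h.d1 s) (h.d2 s)).sub
    (hA.mul (h.Y1 z s))).congr_deriv ?_
  simp only [D3, Pi.zero_apply, Y, h.third, cC]
  ring

theorem dY (h : NC P) (z : Fin 3 → ℝ) : deriv (Y P z) = fun s => D3 z (P s) (deriv (deriv P) s) :=
  funext fun s => (h.Y1 z s).deriv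

theorem ddY (h : NC P) (z : Fin 3 → ℝ) : deriv (deriv (Y P z)) =
    fun s => D3 z (deriv P s) (deriv (deriv P) s) - cA P s * Y P z s := by
  rw [h.dY]; exact funext fun s => (h.Y2 z s).deriv

theorem ode (h : NC P) (z : Fin 3 → ℝ) (s : ℝ) : iteratedDeriv 3 (Y P z) s =
    -(cA P s * deriv (Y P z) s + cC P s * Y P z s) := by
  rw [iteratedDeriv_succ', iteratedDeriv_succ', iteratedDeriv_one, h.ddY, (h.Y3 z s).deriv, h.dY]

/-- evenness of the quotient at all points -/
def Even (P : ℝ → Fin 3 → ℝ) : Prop :=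
  ∀ t, ∃ κ : ℝ, ∀ᶠ c in 𝓝 (0 : ℝ),
    Y P (deriv P t) (t + c) * Y P (P t) (t - c) + Y P (deriv P t) (t - c) * Y P (P t) (t + c) +
      κ * (Y P (P t) (t + c) * Y P (P t) (t - c)) = 0

theorem rigid (h : NC P) (he : Even P) {L : ℝ} (hL : 0 < L) (hper : ∀ t, P (t + L) = P t) (t : ℝ) :
    deriv (cA P) t = 0 ∧ cB P t = 0 := by
  have vals : ∀ t, (iteratedDeriv 0 (Y P (P t)) t = 0 ∧ iteratedDeriv 1 (Y P (P t)) t = 0 ∧
      iteratedDeriv 2 (Y P (P t)) t = 1) ∧ (iteratedDeriv 0 (Y P (deriv P t)) t = 0 ∧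
      iteratedDeriv 1 (Y P (deriv P t)) t = -1 ∧ iteratedDeriv 2 (Y P (deriv P t)) t = 0) := by
    intro t
    have hd := h.det t
    have e2 : ∀ z, iteratedDeriv 2 (Y P z) t = deriv (deriv (Y P z)) t := fun z => by
      rw [iteratedDeriv_succ', iteratedDeriv_one]
    refine ⟨⟨?_, ?_, ?_⟩, ?_, ?_, ?_⟩
    · rw [iteratedDeriv_zero]; unfold Y D3; ring
    · rw [iteratedDeriv_one, h.dY]; unfold D3; ring
    · rw [e2, h.ddY]; simp only; rw [hd]; unfold Y D3; ring
    · rw [iteratedDeriv_zero]; unfold Y D3; ring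
    · rw [iteratedDeriv_one, h.dY, ← hd]; unfold D3; ring
    · rw [e2, h.ddY]; unfold Y D3; ring
  have recs : ∀ t z, Rec (fun i => iteratedDeriv i (cA P) t) (fun i => iteratedDeriv i (cC P) t)
      (fun i => iteratedDeriv i (Y P z) t) := fun t z k =>
    ode_rec (h.sY z) h.sA h.sC (h.ode z) k t
  have evs : ∀ t, ∃ κ, Evn (fun i => iteratedDeriv i (Y P (P t)) t)
      (fun i => iteratedDeriv i (Y P (deriv P t)) t) κ := fun t => by
    obtain ⟨κ, hκ⟩ := he t
    exact ⟨κ, even_rec (h.sY _) (h.sY _) t κ hκ⟩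
  have step1 : ∀ t, deriv (cA P) t + 3 * cC P t = 0 := fun t => by
    obtain ⟨κ, hκ⟩ := evs t
    obtain ⟨⟨a1, a2, a3⟩, a4, a5, a6⟩ := vals t
    have := (alg1 (recs t _) (recs t _) hκ a1 a2 a3 a4 a5 a6).2
    rwa [iteratedDeriv_one, iteratedDeriv_zero] at this
  have hC : cC P = fun s => -(deriv (cA P) s) / 3 := funext fun s => by linarith [step1 s]
  have hCj : ∀ t j, iteratedDeriv j (cC P) t = -(iteratedDeriv (j + 1) (cA P) t) / 3 :=
    fun t j => by
      rw [hC, iteratedDeriv_div_const, iteratedDeriv_fun_neg, ← iteratedDeriv_succ']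
  have step2 : ∀ t, iteratedDeriv 3 (cA P) t = -(cA P t * deriv (cA P) t) / 4 ∧
      (iteratedDeriv 4 (cA P) t = -(deriv (cA P) t * deriv (cA P) t +
        cA P t * iteratedDeriv 2 (cA P) t) / 4 → iteratedDeriv 5 (cA P) t =
        -(cA P t * iteratedDeriv 3 (cA P) t + 3 * (deriv (cA P) t * iteratedDeriv 2 (cA P) t)) / 4 →
        deriv (cA P) t * iteratedDeriv 2 (cA P) t = 0) := fun t => by
    obtain ⟨κ, hκ⟩ := evs t
    obtain ⟨⟨a1, a2, a3⟩, a4, a5, a6⟩ := vals t
    have := alg2 (recs t _) (recs t _) hκ a1 a2 a3 a4 a5 a6 (hCj t)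
    simpa only [iteratedDeriv_one, iteratedDeriv_zero] using this
  have hA3 : iteratedDeriv 3 (cA P) = fun s => -(cA P s * deriv (cA P) s) / 4 :=
    funext fun s => (step2 s).1
  have sA : ∀ t (n : ℕ), ContDiffAt ℝ n (cA P) t := fun t n =>
    (h.sA.of_le (mod_cast le_top)).contDiffAt
  have sA' : ∀ t (n : ℕ), ContDiffAt ℝ n (deriv (cA P)) t := fun t n =>
    (h.sA'.of_le (mod_cast le_top)).contDiffAt
  have hsum : ∀ n t, iteratedDeriv (n + 3) (cA P) t = -(∑ i ∈ Finset.range (n + 1),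
      (n.choose i : ℝ) * iteratedDeriv i (cA P) t * iteratedDeriv (n - i + 1) (cA P) t) / 4 := by
    intro n t
    have e1 : iteratedDeriv (n + 3) (cA P) t = iteratedDeriv n (iteratedDeriv 3 (cA P)) t := by
      rw [iteratedDeriv_succ', iteratedDeriv_succ', iteratedDeriv_succ', iteratedDeriv_succ',
        iteratedDeriv_succ', iteratedDeriv_one]
    rw [e1, hA3, iteratedDeriv_div_const, iteratedDeriv_fun_neg,
      iteratedDeriv_fun_mul (sA t n) (sA' t n)]
    congr 2
    refine Finset.sum_congr rfl fun i _ => ?_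
    rw [← iteratedDeriv_succ' (n := n - i) (f := cA P)]
  have step3 : ∀ t, deriv (cA P) t * iteratedDeriv 2 (cA P) t = 0 := fun t => by
    refine (step2 t).2 ?_ ?_
    · have := hsum 1 t
      norm_num [Finset.sum_range_succ, iteratedDeriv_one, iteratedDeriv_zero] at this
      rw [this]; ring
    · have := hsum 2 t
      norm_num [Finset.sum_range_succ, iteratedDeriv_one, iteratedDeriv_zero, Nat.choose] at this
      rw [this]; ring
  -- `A'` is constant
  have dA' : ∀ t, HasDerivAt (deriv (cA P)) (iteratedDeriv 2 (cA P) t) t := fun t => by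
    have : iteratedDeriv 2 (cA P) t = deriv (deriv (cA P)) t := by
      rw [iteratedDeriv_succ', iteratedDeriv_one]
    rw [this]
    exact (h.sA'.differentiable (by simp) t).hasDerivAt
  have dsq : ∀ t, HasDerivAt (fun s => deriv (cA P) s ^ 2) 0 t := fun t => by
    refine ((dA' t).pow 2).congr_deriv ?_
    have := step3 t
    simp only [Nat.cast_ofNat, Nat.add_one_sub_one, pow_one]
    linear_combination 2 * this
  have hconst : ∀ s t, deriv (cA P) s ^ 2 = deriv (cA P) t ^ 2 := fun s t =>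
    is_const_of_deriv_eq_zero (fun t => (dsq t).differentiableAt) (fun t => (dsq t).deriv) s t
  have hAper : ∀ t, cA P (t + L) = cA P t := by
    have p0 : (fun t => P (t + L)) = P := funext hper
    have per : ∀ {f : ℝ → Fin 3 → ℝ}, (∀ t, f (t + L) = f t) → ∀ t, deriv f (t + L) = deriv f t := by
      intro f hf t
      rw [← deriv_comp_add_const f L t]
      congr 1
      exact funext hf
    have p1 := per hper
    have p2 := per p1
    have p3 := per p2
    intro t
    unfold cA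
    rw [hper, p3, p2]
  obtain ⟨t0, -, ht0⟩ := exists_deriv_eq_zero (f := cA P) (a := 0) (b := L) hL
    h.sA.continuous.continuousOn (by have := hAper 0; rw [zero_add] at this; exact this.symm)
  have hA' : ∀ t, deriv (cA P) t = 0 := fun t => by
    have := hconst t t0
    rw [ht0] at this
    simpa using this
  refine ⟨hA' t, ?_⟩
  have h1 := step1 t
  have h2 := hA' t
  unfold cC at h1
  rw [h2] at h1
  linarith

end NC

end Pool.Agent.W5h40.Iso
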