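import Mathlib

set_option autoImplicit false

open Filter Topology Set
open scoped ContDiff

namespace Pool.Agent.W5h40.Iso

/-- Leibniz rule for the third order equation `y''' = -(A y' + C y)`. -/
theorem ode_rec {y A C : ℝ → ℝ} (hy : ContDiff ℝ ∞ y) (hA : ContDiff ℝ ∞ A) (hC : ContDiff ℝ ∞ C)
    (h : ∀ s, iteratedDeriv 3 y s = -(A s * deriv y s + C s * y s)) (k : ℕ) (t : ℝ) :
    iteratedDeriv (k + 3) y t = -(∑ i ∈ Finset.range (k + 1), (k.choose i : ℝ) *
      (iteratedDeriv i A t * iteratedDeriv (k - i + 1) y t +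
        iteratedDeriv i C t * iteratedDeriv (k - i) y t)) := by
  have h0 : iteratedDeriv 3 y = fun s => -(A s * deriv y s + C s * y s) := funext h
  have hy' : ContDiff ℝ ∞ (deriv y) := (contDiff_infty_iff_deriv.mp hy).2
  have cA : ContDiffAt ℝ k A t := (hA.of_le (mod_cast le_top)).contDiffAt
  have cC : ContDiffAt ℝ k C t := (hC.of_le (mod_cast le_top)).contDiffAt
  have cy : ContDiffAt ℝ k y t := (hy.of_le (mod_cast le_top)).contDiffAt
  have cy' : ContDiffAt ℝ k (deriv y) t := (hy'.of_le (mod_cast le_top)).contDiffAt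
  have e1 : iteratedDeriv (k + 3) y t = iteratedDeriv k (iteratedDeriv 3 y) t := by
    rw [iteratedDeriv_succ', iteratedDeriv_succ', iteratedDeriv_succ', iteratedDeriv_succ',
      iteratedDeriv_succ', iteratedDeriv_one]
  rw [e1, h0, iteratedDeriv_fun_neg, iteratedDeriv_fun_add (cA.mul cy') (cC.mul cy),
    iteratedDeriv_fun_mul cA cy', iteratedDeriv_fun_mul cC cy, ← Finset.sum_add_distrib]
  congr 1
  refine Finset.sum_congr rfl fun i _ => ?_
  rw [← iteratedDeriv_succ' (n := k - i) (f := y)]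
  ring

/-- The derivatives at `0` of `v(c) u(-c) + v(-c) u(c) + κ u(c) u(-c)`. -/
theorem even_rec {U V : ℝ → ℝ} (hU : ContDiff ℝ ∞ U) (hV : ContDiff ℝ ∞ V) (t κ : ℝ)
    (h : ∀ᶠ c in 𝓝 (0 : ℝ), V (t + c) * U (t - c) + V (t - c) * U (t + c) +
      κ * (U (t + c) * U (t - c)) = 0) (n : ℕ) :
    ∑ i ∈ Finset.range (n + 1), (n.choose i : ℝ) *
      (iteratedDeriv i V t * ((-1) ^ (n - i) * iteratedDeriv (n - i) U t) +
       (-1) ^ i * iteratedDeriv i V t * iteratedDeriv (n - i) U t +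
       κ * (iteratedDeriv i U t * ((-1) ^ (n - i) * iteratedDeriv (n - i) U t))) = 0 := by
  have d1 : ∀ f : ℝ → ℝ, ∀ m : ℕ, iteratedDeriv m (fun c => f (t + c)) 0 = iteratedDeriv m f t :=
    fun f m => by
      have := congrFun (iteratedDeriv_comp_const_add m f t) 0
      simpa using this
  have d2 : ∀ f : ℝ → ℝ, ∀ m : ℕ, iteratedDeriv m (fun c => f (t - c)) 0 =
      (-1) ^ m * iteratedDeriv m f t := fun f m => by
      have := congrFun (iteratedDeriv_comp_const_sub m f t) 0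
      simpa using this
  have s1 : ∀ f : ℝ → ℝ, ContDiff ℝ ∞ f → ContDiffAt ℝ n (fun c => f (t + c)) 0 := fun f hf =>
    ((hf.comp (contDiff_const.add contDiff_id)).of_le (mod_cast le_top)).contDiffAt
  have s2 : ∀ f : ℝ → ℝ, ContDiff ℝ ∞ f → ContDiffAt ℝ n (fun c => f (t - c)) 0 := fun f hf =>
    ((hf.comp (contDiff_const.sub contDiff_id)).of_le (mod_cast le_top)).contDiffAt
  have h1 : iteratedDeriv n (fun c => V (t + c) * U (t - c) + V (t - c) * U (t + c) +
      κ * (U (t + c) * U (t - c))) 0 = iteratedDeriv n (fun _ : ℝ => (0 : ℝ)) 0 :=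
    Filter.EventuallyEq.iteratedDeriv_eq n h
  have h2 : iteratedDeriv n (fun _ : ℝ => (0 : ℝ)) 0 = 0 := by
    rw [iteratedDeriv_const]; split_ifs <;> rfl
  rw [h2, iteratedDeriv_fun_add (((s1 V hV).mul (s2 U hU)).add ((s2 V hV).mul (s1 U hU)))
    (contDiffAt_const.mul ((s1 U hU).mul (s2 U hU))),
    iteratedDeriv_fun_add ((s1 V hV).mul (s2 U hU)) ((s2 V hV).mul (s1 U hU)),
    iteratedDeriv_const_mul_field, iteratedDeriv_fun_mul (s1 V hV) (s2 U hU),
    iteratedDeriv_fun_mul (s2 V hV) (s1 U hU), iteratedDeriv_fun_mul (s1 U hU) (s2 U hU),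
    Finset.mul_sum, ← Finset.sum_add_distrib, ← Finset.sum_add_distrib] at h1
  rw [← h1]
  refine Finset.sum_congr rfl fun i _ => ?_
  rw [d1, d2, d2, d1, d1]
  ring

/-- the abstract recursion -/
def Rec (a c y : ℕ → ℝ) : Prop :=
  ∀ k, y (k + 3) = -(∑ i ∈ Finset.range (k + 1), (k.choose i : ℝ) *
      (a i * y (k - i + 1) + c i * y (k - i)))

/-- the abstract evenness relation -/
def Evn (u v : ℕ → ℝ) (κ : ℝ) : Prop :=
  ∀ n, ∑ i ∈ Finset.range (n + 1), (n.choose i : ℝ) *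
      (v i * ((-1) ^ (n - i) * u (n - i)) + (-1) ^ i * v i * u (n - i) +
       κ * (u i * ((-1) ^ (n - i) * u (n - i)))) = 0

theorem alg1 {a c u v : ℕ → ℝ} {κ : ℝ} (hu : Rec a c u) (hv : Rec a c v) (he : Evn u v κ)
    (u0 : u 0 = 0) (u1 : u 1 = 0) (u2 : u 2 = 1) (v0 : v 0 = 0) (v1 : v 1 = -1) (v2 : v 2 = 0) :
    κ = 0 ∧ a 1 + 3 * c 0 = 0 := by
  have u3 := hu 0
  norm_num [Finset.sum_range_succ, u0, u1] at u3
  have v3 := hv 0
  norm_num [Finset.sum_range_succ, v0, v1] at v3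
  have u4 := hu 1
  norm_num [Finset.sum_range_succ, u0, u1, u2] at u4
  have v4 := hv 1
  norm_num [Finset.sum_range_succ, v0, v1, v2] at v4
  have u5 := hu 2
  norm_num [Finset.sum_range_succ, u0, u1, u2, u3, Nat.choose] at u5
  have e4 := he 4
  norm_num [Finset.sum_range_succ, u0, u1, u2, u3, v0, v1, v2, v3, u4, v4, Nat.choose] at e4
  have e6 := he 6
  norm_num [Finset.sum_range_succ, u0, u1, u2, u3, v0, v1, v2, v3, u4, v4, u5, e4, Nat.choose] at e6
  exact ⟨e4, by linarith⟩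

theorem alg2 {a c u v : ℕ → ℝ} {κ : ℝ} (hu : Rec a c u) (hv : Rec a c v) (he : Evn u v κ)
    (u0 : u 0 = 0) (u1 : u 1 = 0) (u2 : u 2 = 1) (v0 : v 0 = 0) (v1 : v 1 = -1) (v2 : v 2 = 0)
    (hc : ∀ j, c j = -(a (j + 1)) / 3) :
    a 3 = -(a 0 * a 1) / 4 ∧ (a 4 = -(a 1 * a 1 + a 0 * a 2) / 4 →
      a 5 = -(a 0 * a 3 + 3 * (a 1 * a 2)) / 4 → a 1 * a 2 = 0) := by
  have hκ : κ = 0 := (alg1 hu hv he u0 u1 u2 v0 v1 v2).1
  subst hκ
  have c0 := hc 0
  have c1 := hc 1
  have c2 := hc 2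
  have c3 := hc 3
  have c4 := hc 4
  have c5 := hc 5
  norm_num at c0 c1 c2 c3 c4 c5
  have u3 := hu 0
  norm_num [Finset.sum_range_succ, u0, u1] at u3
  have v3 := hv 0
  norm_num [Finset.sum_range_succ, v0, v1] at v3
  have u4 := hu 1
  norm_num [Finset.sum_range_succ, u0, u1, u2] at u4
  have v4 := hv 1
  norm_num [Finset.sum_range_succ, v0, v1, v2] at v4
  have u5 := hu 2
  norm_num [Finset.sum_range_succ, u0, u1, u2, u3, Nat.choose] at u5
  have v5 := hv 2
  norm_num [Finset.sum_range_succ, v0, v1, v2, v3, Nat.choose] at v5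
  have u6 := hu 3
  norm_num [Finset.sum_range_succ, u0, u1, u2, u3, u4, Nat.choose] at u6
  have v6 := hv 3
  norm_num [Finset.sum_range_succ, v0, v1, v2, v3, v4, Nat.choose] at v6
  have u7 := hu 4
  norm_num [Finset.sum_range_succ, u0, u1, u2, u3, u4, u5, Nat.choose] at u7
  have v7 := hv 4
  norm_num [Finset.sum_range_succ, v0, v1, v2, v3, v4, v5, Nat.choose] at v7
  have u8 := hu 5
  norm_num [Finset.sum_range_succ, u0, u1, u2, u3, u4, u5, u6, Nat.choose] at u8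
  have v8 := hv 5
  norm_num [Finset.sum_range_succ, v0, v1, v2, v3, v4, v5, v6, Nat.choose] at v8
  have u9 := hu 6
  norm_num [Finset.sum_range_succ, u0, u1, u2, u3, u4, u5, u6, u7, Nat.choose] at u9
  have e8 := he 8
  norm_num [Finset.sum_range_succ, u0, u1, u2, u3, v0, v1, v2, v3, u4, v4, u5, v5, u6, v6, u7,
    v7, Nat.choose] at e8
  have e10 := he 10
  norm_num [Finset.sum_range_succ, u0, u1, u2, u3, v0, v1, v2, v3, u4, v4, u5, v5, u6, v6, u7,
    v7, u8, v8, u9, Nat.choose] at e10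
  simp only [c0, c1, c2] at e8
  simp only [c0, c1, c2, c3, c4] at e10
  have h3 : a 3 = -(a 0 * a 1) / 4 := by
    ring_nf at e8
    linarith
  refine ⟨h3, fun h4 h5 => ?_⟩
  simp only [h4, h5, h3] at e10
  ring_nf at e10
  linarith

end Pool.Agent.W5h40.Iso
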