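import Pool.Agent.W5h40.Iso.Repar

set_option autoImplicit false

open Filter Topology Set
open scoped ContDiff

namespace Pool.Agent.W5h40.Iso

/-- projective involutions, with determinants -/
def ProjInv (p : ℝ → Fin 3 → ℝ) (ψ : ℝ → ℝ → ℝ) : Prop :=
  ∀ t : ℝ, ∃ κ ε : ℝ, 0 < ε ∧ ∀ c x y s : ℝ, 0 < c → c < ε → 0 < x → x < ε → 0 < y → y < ε →
    |s - t| < ε → ψ c s = t → D3 (p (ψ c t)) (deriv p (ψ c t)) (p t + x • deriv p t) = 0 →
    D3 (p s) (deriv p s) (p t - y • deriv p t) = 0 → 1 / x - 1 / y = κ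

/-- data after reparametrization -/
structure Data (p : ℝ → Fin 3 → ℝ) (ψ : ℝ → ℝ → ℝ) (g θ T lam : ℝ → ℝ) (s : ℝ → ℝ) (δ : ℝ) :
    Prop where
  smooth : ContDiff ℝ ∞ p
  gpos : ∀ t, 0 < g t
  dT : ∀ τ, HasDerivAt T (g (T τ)) τ
  Tθ : ∀ t, T (θ t) = t
  θT : ∀ τ, θ (T τ) = τ
  lams : ContDiff ℝ ∞ lam
  lam0 : ∀ τ, lam τ ≠ 0
  nc : NC (fun τ => lam τ • p (T τ))
  δpos : 0 < δ
  trans : ∀ c, 0 ≤ c → c < δ → ∀ t, θ (ψ c t) = θ t + s c
  sc : Continuous s
  s0 : s 0 = 0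
  spos : ∀ᶠ c in 𝓝[>] (0 : ℝ), 0 < s c

namespace Data

variable {p : ℝ → Fin 3 → ℝ} {ψ : ℝ → ℝ → ℝ} {g θ T lam : ℝ → ℝ} {s : ℝ → ℝ} {δ : ℝ}

theorem dp (h : Data p ψ g θ T lam s δ) (t : ℝ) : HasDerivAt p (deriv p t) t :=
  (h.smooth.differentiable (by simp) t).hasDerivAt

theorem dl (h : Data p ψ g θ T lam s δ) (τ : ℝ) : HasDerivAt lam (deriv lam τ) τ :=
  (h.lams.differentiable (by simp) τ).hasDerivAt

theorem dP (h : Data p ψ g θ T lam s δ) (τ : ℝ) : deriv (fun τ => lam τ • p (T τ)) τ =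
    lam τ • (g (T τ) • deriv p (T τ)) + deriv lam τ • p (T τ) := by
  have h1 : HasDerivAt (fun τ => p (T τ)) (g (T τ) • deriv p (T τ)) τ :=
    (h.dp (T τ)).scomp τ (h.dT τ)
  exact ((h.dl τ).smul h1).deriv

/-- `det(p t, p s, p' s)` and `det(p' t, p s, p' s)` in terms of the normalized curve -/
theorem U_eq (h : Data p ψ g θ T lam s δ) (τ σ : ℝ) :
    NC.Y (fun τ => lam τ • p (T τ)) (lam τ • p (T τ)) σ =
      lam σ ^ 2 * g (T σ) * (lam τ * D3 (p (T τ)) (p (T σ)) (deriv p (T σ))) := by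
  unfold NC.Y
  rw [h.dP σ]
  simp only [D3, Pi.add_apply, Pi.smul_apply, smul_eq_mul]
  ring

theorem V_eq (h : Data p ψ g θ T lam s δ) (τ σ : ℝ) :
    NC.Y (fun τ => lam τ • p (T τ)) (deriv (fun τ => lam τ • p (T τ)) τ) σ =
      lam σ ^ 2 * g (T σ) * (deriv lam τ * D3 (p (T τ)) (p (T σ)) (deriv p (T σ)) +
        lam τ * g (T τ) * D3 (deriv p (T τ)) (p (T σ)) (deriv p (T σ))) := by
  unfold NC.Y
  rw [h.dP σ, h.dP τ]
  simp only [D3, Pi.add_apply, Pi.smul_apply, smul_eq_mul]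
  ring

theorem param (h : Data p ψ g θ T lam s δ) {ε : ℝ} (hε : 0 < ε) :
    ∀ᶠ σ in 𝓝[>] (0 : ℝ), ∃ c, 0 < c ∧ c < ε ∧ c < δ ∧ s c = σ := by
  obtain ⟨c1, h1, h2, h3⟩ : ∃ c1, 0 < s c1 ∧ 0 < c1 ∧ c1 < min ε δ := by
    have b1 : ∀ᶠ c in 𝓝[>] (0 : ℝ), 0 < c := self_mem_nhdsWithin
    have b2 : ∀ᶠ c in 𝓝[>] (0 : ℝ), c < min ε δ :=
      nhdsWithin_le_nhds (gt_mem_nhds (lt_min hε h.δpos))
    obtain ⟨c1, a1, a2, a3⟩ := (h.spos.and (b1.and b2)).exists
    exact ⟨c1, a1, a2, a3⟩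
  filter_upwards [self_mem_nhdsWithin, nhdsWithin_le_nhds (gt_mem_nhds h1)] with σ a1 a2
  have a1 : 0 < σ := a1
  obtain ⟨c, hc, hcs⟩ := intermediate_value_Icc h2.le h.sc.continuousOn
    (show σ ∈ Icc (s 0) (s c1) by rw [h.s0]; exact ⟨a1.le, a2.le⟩)
  have hc0 : c ≠ 0 := fun h0 => by rw [h0, h.s0] at hcs; exact a1.ne hcs
  exact ⟨c, lt_of_le_of_ne hc.1 (Ne.symm hc0), (hc.2.trans_lt h3).trans_le (min_le_left _ _),
    (hc.2.trans_lt h3).trans_le (min_le_right _ _), hcs⟩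

theorem even (h : Data p ψ g θ T lam s δ) (hp : ProjInv p ψ) :
    NC.Even (fun τ => lam τ • p (T τ)) := by
  intro τ
  obtain ⟨κ, ε, hε, H⟩ := hp (T τ)
  set G := g (T τ) with hG
  have hGp : 0 < G := h.gpos _
  set r := deriv lam τ / lam τ with hr
  have hl := h.lam0 τ
  refine ⟨G * κ - 2 * r, ?_⟩
  set V : ℝ → ℝ := NC.Y (fun τ => lam τ • p (T τ)) (deriv (fun τ => lam τ • p (T τ)) τ) with hV
  set U : ℝ → ℝ := NC.Y (fun τ => lam τ • p (T τ)) (lam τ • p (T τ)) with hU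
  -- it suffices to treat positive parameters
  suffices key : ∀ᶠ c in 𝓝[>] (0 : ℝ), V (τ + c) * U (τ - c) + V (τ - c) * U (τ + c) +
      (G * κ - 2 * r) * (U (τ + c) * U (τ - c)) = 0 by
    have hU0 : U τ = 0 := by rw [hU]; unfold NC.Y D3; ring
    rw [eventually_nhdsWithin_iff] at key
    have hneg : Tendsto (fun c : ℝ => -c) (𝓝 0) (𝓝 0) := by
      have := (continuous_neg (G := ℝ)).tendsto 0
      simpa using this
    filter_upwards [key, hneg.eventually key] with c k1 k2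
    rcases lt_trichotomy c 0 with h0 | h0 | h0
    · have := k2 (neg_pos.mpr h0)
      rw [sub_neg_eq_add, ← sub_eq_add_neg] at this
      linarith
    · rw [h0, add_zero, sub_zero, hU0]; ring
    · exact k1 h0
  have hT : Continuous T := continuous_iff_continuousAt.mpr fun τ => (h.dT τ).continuousAt
  have hnear : ∀ᶠ σ in 𝓝[>] (0 : ℝ), |T (τ - σ) - T τ| < ε := by
    have : Tendsto (fun σ : ℝ => |T (τ - σ) - T τ|) (𝓝 0) (𝓝 |T (τ - 0) - T τ|) :=
      (((hT.comp (continuous_const.sub continuous_id)).sub continuous_const).abs).tendsto 0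
    rw [sub_zero, sub_self, abs_zero] at this
    exact nhdsWithin_le_nhds (this.eventually (gt_mem_nhds hε))
  filter_upwards [h.param hε, h.nc.asym τ (|r| + G / ε), hnear] with σ a1 a2 a3
  obtain ⟨c, c1, c2, c3, c4⟩ := a1
  obtain ⟨⟨b1, b2⟩, b3, b4⟩ := a2
  have b1 : 0 < U (τ + σ) := b1
  have b2 : |r| + G / ε < -(V (τ + σ) / U (τ + σ)) := b2
  have b3 : 0 < U (τ - σ) := b3
  have b4 : |r| + G / ε < V (τ - σ) / U (τ - σ) := b4
  have e1 : ψ c (T τ) = T (τ + σ) := by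
    rw [← h.Tθ (ψ c (T τ)), h.trans c c1.le c3, h.θT, c4]
  have e2 : ψ c (T (τ - σ)) = T τ := by
    rw [← h.Tθ (ψ c (T (τ - σ))), h.trans c c1.le c3, h.θT, c4, sub_add_cancel]
  set W₁ := D3 (p (T τ)) (p (T (τ + σ))) (deriv p (T (τ + σ))) with hW1
  set X₁ := D3 (deriv p (T τ)) (p (T (τ + σ))) (deriv p (T (τ + σ))) with hX1
  set W₂ := D3 (p (T τ)) (p (T (τ - σ))) (deriv p (T (τ - σ))) with hW2
  set X₂ := D3 (deriv p (T τ)) (p (T (τ - σ))) (deriv p (T (τ - σ))) with hX2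
  have u1 : U (τ + σ) = lam (τ + σ) ^ 2 * g (T (τ + σ)) * (lam τ * W₁) := h.U_eq τ (τ + σ)
  have u2 : U (τ - σ) = lam (τ - σ) ^ 2 * g (T (τ - σ)) * (lam τ * W₂) := h.U_eq τ (τ - σ)
  have v1 : V (τ + σ) = lam (τ + σ) ^ 2 * g (T (τ + σ)) * (deriv lam τ * W₁ + lam τ * G * X₁) :=
    h.V_eq τ (τ + σ)
  have v2 : V (τ - σ) = lam (τ - σ) ^ 2 * g (T (τ - σ)) * (deriv lam τ * W₂ + lam τ * G * X₂) :=
    h.V_eq τ (τ - σ)
  have K1 : lam (τ + σ) ^ 2 * g (T (τ + σ)) ≠ 0 :=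
    mul_ne_zero (pow_ne_zero 2 (h.lam0 _)) (h.gpos _).ne'
  have K2 : lam (τ - σ) ^ 2 * g (T (τ - σ)) ≠ 0 :=
    mul_ne_zero (pow_ne_zero 2 (h.lam0 _)) (h.gpos _).ne'
  have w1 : W₁ ≠ 0 := fun h0 => by rw [h0] at u1; simp at u1; exact b1.ne' u1
  have w2 : W₂ ≠ 0 := fun h0 => by rw [h0] at u2; simp at u2; exact b3.ne' u2
  have q1 : V (τ + σ) / U (τ + σ) = r + G * (X₁ / W₁) := by
    rw [u1, v1, mul_div_mul_left _ _ K1, hr]
    field_simp
  have q2 : V (τ - σ) / U (τ - σ) = r + G * (X₂ / W₂) := by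
    rw [u2, v2, mul_div_mul_left _ _ K2, hr]
    field_simp
  have f1 : 1 / ε < -(X₁ / W₁) := by
    rw [q1] at b2
    have : G / ε < G * (-(X₁ / W₁)) := by
      have := neg_abs_le r
      linarith
    rw [div_eq_mul_one_div] at this
    exact lt_of_mul_lt_mul_left this hGp.le
  have f2 : 1 / ε < X₂ / W₂ := by
    rw [q2] at b4
    have : G / ε < G * (X₂ / W₂) := by
      have := le_abs_self r
      linarith
    rw [div_eq_mul_one_div] at this
    exact lt_of_mul_lt_mul_left this hGp.le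
  have hεi : 0 < 1 / ε := by positivity
  have x1 : X₁ ≠ 0 := fun h0 => by rw [h0] at f1; simp at f1; linarith [inv_pos.mpr hε]
  have x2 : X₂ ≠ 0 := fun h0 => by rw [h0] at f2; simp at f2; linarith [inv_pos.mpr hε]
  have g1 : -(W₁ / X₁) = (-(X₁ / W₁))⁻¹ := by rw [inv_neg, inv_div]
  have g2 : W₂ / X₂ = (X₂ / W₂)⁻¹ := by rw [inv_div]
  have i1 : 0 < -(W₁ / X₁) ∧ -(W₁ / X₁) < ε := by
    rw [g1]
    refine ⟨inv_pos.mpr (hεi.trans f1), ?_⟩
    rw [inv_lt_comm₀ (hεi.trans f1) hε, ← one_div]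
    exact f1
  have i2 : 0 < W₂ / X₂ ∧ W₂ / X₂ < ε := by
    rw [g2]
    refine ⟨inv_pos.mpr (hεi.trans f2), ?_⟩
    rw [inv_lt_comm₀ (hεi.trans f2) hε, ← one_div]
    exact f2
  have j1 : D3 (p (ψ c (T τ))) (deriv p (ψ c (T τ))) (p (T τ) + (-(W₁ / X₁)) • deriv p (T τ)) =
      0 := by
    rw [e1]
    have : D3 (p (T (τ + σ))) (deriv p (T (τ + σ))) (p (T τ) + (-(W₁ / X₁)) • deriv p (T τ)) =
        W₁ + (-(W₁ / X₁)) * X₁ := by
      simp only [hW1, hX1, D3, Pi.add_apply, Pi.smul_apply, smul_eq_mul]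
      ring
    rw [this]
    field_simp
    ring
  have j2 : D3 (p (T (τ - σ))) (deriv p (T (τ - σ))) (p (T τ) - (W₂ / X₂) • deriv p (T τ)) =
      0 := by
    have : D3 (p (T (τ - σ))) (deriv p (T (τ - σ))) (p (T τ) - (W₂ / X₂) • deriv p (T τ)) =
        W₂ - (W₂ / X₂) * X₂ := by
      simp only [hW2, hX2, D3, Pi.sub_apply, Pi.smul_apply, smul_eq_mul]
      ring
    rw [this]
    field_simp
    ring
  have main := H c (-(W₁ / X₁)) (W₂ / X₂) (T (τ - σ)) c1 c2 i1.1 i1.2 i2.1 i2.2 a3 e2 j1 j2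
  have m1 : 1 / (-(W₁ / X₁)) = -(X₁ / W₁) := by rw [g1, one_div, inv_inv]
  have m2 : 1 / (W₂ / X₂) = X₂ / W₂ := by rw [g2, one_div, inv_inv]
  rw [m1, m2] at main
  have n1 : V (τ + σ) = (r + G * (X₁ / W₁)) * U (τ + σ) := by
    rw [← q1, div_mul_cancel₀ _ b1.ne']
  have n2 : V (τ - σ) = (r + G * (X₂ / W₂)) * U (τ - σ) := by
    rw [← q2, div_mul_cancel₀ _ b3.ne']
  rw [n1, n2]
  linear_combination (-(G * U (τ + σ) * U (τ - σ))) * main

end Data

theorem main {p : ℝ → Fin 3 → ℝ} {L : ℝ} (hL : 0 < L) (hs : ContDiff ℝ ∞ p)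
    (hper : ∀ t, p (t + L) = p t) (hdet : ∀ t, D3 (p t) (deriv p t) (deriv (deriv p) t) ≠ 0)
    {ψ : ℝ → ℝ → ℝ} (hψ : ContDiff ℝ ∞ (fun x : ℝ × ℝ => ψ x.1 x.2))
    (h0 : ∀ t, ψ 0 t = t) (h1 : ∀ t, 0 < deriv (fun c => ψ c t) 0)
    (hψper : ∀ c t, ψ c (t + L) = ψ c t + L) {δ : ℝ} (hδ : 0 < δ)
    (hcomm : ∀ c d t, 0 ≤ c → c < δ → 0 ≤ d → d < δ → ψ c (ψ d t) = ψ d (ψ c t))
    (hproj : ProjInv p ψ) :
    ∃ x y l : (Fin 3 → ℝ) →ₗ[ℝ] ℝ, LinearIndependent ℝ ![x, y, l] ∧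
      (∀ t, l (p t) ≠ 0 ∧ x (p t) ^ 2 + y (p t) ^ 2 = l (p t) ^ 2) ∧
      ∃ k : ℝ → ℝ, ∃ η : ℝ, 0 < η ∧ ∀ c, 0 < c → c < η → 1 < k c ∧ ∀ t q, q ≠ 0 →
        D3 (p t) (deriv p t) q = 0 → D3 (p (ψ c t)) (deriv p (ψ c t)) q = 0 →
        l q ≠ 0 ∧ x q ^ 2 + y q ^ 2 = k c * l q ^ 2 := by
  set g : ℝ → ℝ := fun t => deriv (fun c => ψ c t) 0 with hg
  have hψc : ∀ t, ContDiff ℝ ∞ (fun c => ψ c t) := fun t =>
    hψ.comp (contDiff_id.prodMk contDiff_const)
  have dψ : ∀ t, HasDerivAt (fun c => ψ c t) (g t) 0 := fun t =>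
    ((hψc t).differentiable (by simp) 0).hasDerivAt
  have hgs : ContDiff ℝ ∞ g := by
    have e : g = fun t => fderiv ℝ (fun x : ℝ × ℝ => ψ x.1 x.2) (0, t) (1, 0) := by
      funext t
      have h2 : HasDerivAt (fun c : ℝ => (c, t)) ((1 : ℝ), (0 : ℝ)) 0 :=
        (hasDerivAt_id (0 : ℝ)).prodMk (hasDerivAt_const (0 : ℝ) t)
      have h3 := ((hψ.differentiable (by simp) ((0 : ℝ), t)).hasFDerivAt).comp_hasDerivAt (0 : ℝ) h2
      exact (dψ t).unique h3
    rw [e]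
    have h4 : ContDiff ℝ ∞ (fderiv ℝ (fun x : ℝ × ℝ => ψ x.1 x.2)) :=
      hψ.fderiv_right (by simp)
    exact (h4.comp (contDiff_const.prodMk contDiff_id)).clm_apply contDiff_const
  have hgper : ∀ t, g (t + L) = g t := fun t => by
    simp only [hg]
    have : (fun c => ψ c (t + L)) = fun c => ψ c t + L := funext fun c => hψper c t
    rw [this, deriv_add_const]
  obtain ⟨θ, T, Θ, hΘ, dθ, dT, hTs, hTθ, hθT, hTper⟩ := exists_param hgs h1 hL hgper
  have htr := fun c (hc0 : 0 ≤ c) (hc : c < δ) t =>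
    translation hψ h0 dψ h1 dθ hδ hcomm hc0 hc t
  -- the reparametrized curve
  set q : ℝ → Fin 3 → ℝ := fun τ => p (T τ) with hq
  have hqs : ContDiff ℝ ∞ q := hs.comp hTs
  have hp1 : ContDiff ℝ ∞ (deriv p) := (contDiff_infty_iff_deriv.mp hs).2
  have hp2 : ContDiff ℝ ∞ (deriv (deriv p)) := (contDiff_infty_iff_deriv.mp hp1).2
  have dp : ∀ t, HasDerivAt p (deriv p t) t := fun t => (hs.differentiable (by simp) t).hasDerivAt
  have dp1 : ∀ t, HasDerivAt (deriv p) (deriv (deriv p) t) t := fun t =>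
    (hp1.differentiable (by simp) t).hasDerivAt
  have dg : ∀ t, HasDerivAt g (deriv g t) t := fun t =>
    (hgs.differentiable (by simp) t).hasDerivAt
  have q1 : deriv q = fun τ => g (T τ) • deriv p (T τ) := funext fun τ =>
    ((dp (T τ)).scomp τ (dT τ)).deriv
  have q2 : deriv (deriv q) = fun τ => g (T τ) • (g (T τ) • deriv (deriv p) (T τ)) +
      (deriv g (T τ) * g (T τ)) • deriv p (T τ) := by
    rw [q1]
    exact funext fun τ => (((dg (T τ)).comp τ (dT τ)).smul ((dp1 (T τ)).scomp τ (dT τ))).deriv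
  have hqper : ∀ τ, q (τ + Θ) = q τ := fun τ => by simp only [hq]; rw [hTper, hper]
  have hqdet : ∀ τ, D3 (q τ) (deriv q τ) (deriv (deriv q) τ) ≠ 0 := fun τ => by
    rw [q2, q1]
    have : D3 (q τ) (g (T τ) • deriv p (T τ)) (g (T τ) • (g (T τ) • deriv (deriv p) (T τ)) +
      (deriv g (T τ) * g (T τ)) • deriv p (T τ)) = g (T τ) ^ 3 *
        D3 (p (T τ)) (deriv p (T τ)) (deriv (deriv p) (T τ)) := by
      simp only [D3, hq, Pi.add_apply, Pi.smul_apply, smul_eq_mul]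
      ring
    rw [this]
    exact mul_ne_zero (pow_ne_zero 3 (h1 _).ne') (hdet _)
  obtain ⟨lam, hls, hl0, hlper, hnc⟩ := exists_norm hqs hqdet hqper
  set s : ℝ → ℝ := fun c => θ (ψ c 0) - θ 0 with hsd
  have hθc : Continuous θ := continuous_iff_continuousAt.mpr fun t => (dθ t).continuousAt
  have ds : HasDerivAt s 1 0 := by
    have h2 : HasDerivAt (fun c => θ (ψ c 0)) ((g (ψ 0 0))⁻¹ * g 0) 0 :=
      HasDerivAt.comp (h₂ := θ) (h := fun c => ψ c 0) (0 : ℝ) (dθ (ψ 0 0)) (dψ 0)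
    rw [h0, inv_mul_cancel₀ (h1 0).ne'] at h2
    exact h2.sub_const _
  have hspos : ∀ᶠ c in 𝓝[>] (0 : ℝ), 0 < s c := by
    have s00 : s 0 = 0 := by simp only [hsd]; rw [h0, sub_self]
    have := (hasDerivAt_iff_isLittleO.mp ds).def (c := 1 / 2) (by norm_num)
    filter_upwards [nhdsWithin_le_nhds this, self_mem_nhdsWithin] with c h2 h3
    have h3 : 0 < c := h3
    simp only [s00, sub_zero, smul_eq_mul, mul_one, Real.norm_eq_abs] at h2
    rw [abs_of_pos h3, abs_le] at h2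
    linarith [h2.1]
  have hsc : Continuous s := (hθc.comp (hψc 0).continuous).sub continuous_const
  have s00 : s 0 = 0 := by simp only [hsd]; rw [h0, sub_self]
  have D : Data p ψ g θ T lam s δ :=
    { smooth := hs, gpos := h1, dT := dT, Tθ := hTθ, θT := hθT, lams := hls, lam0 := hl0
      nc := hnc, δpos := hδ
      trans := fun c hc0 hc t => by have := htr c hc0 hc t; simp only [hsd]; linarith
      sc := hsc, s0 := s00, spos := hspos }
  have hPper : ∀ τ, (fun τ => lam τ • p (T τ)) (τ + Θ) = (fun τ => lam τ • p (T τ)) τ :=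
    fun τ => by simp only; rw [hlper, hTper, hper]
  have R := fun τ => hnc.rigid (D.even hproj) hΘ hPper τ
  obtain ⟨x, y, l, hli, hker, w, hw, hsol⟩ := hnc.concl (fun τ => (R τ).1) (fun τ => (R τ).2) hΘ
    hPper
  set P : ℝ → Fin 3 → ℝ := fun τ => lam τ • q τ with hP
  have hx : ∀ τ, lam τ * x (q τ) = Real.cos (w * τ) := fun τ => by
    have := (hsol τ).1
    rwa [map_smul, smul_eq_mul] at this
  have hy : ∀ τ, lam τ * y (q τ) = Real.sin (w * τ) := fun τ => by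
    have := (hsol τ).2.1
    rwa [map_smul, smul_eq_mul] at this
  have hl : ∀ τ, lam τ * l (q τ) = 1 := fun τ => by
    have := (hsol τ).2.2
    rwa [map_smul, smul_eq_mul] at this
  -- points of the tangent lines
  have tang : ∀ t z, D3 (p t) (deriv p t) z = 0 →
      x z * Real.cos (w * θ t) + y z * Real.sin (w * θ t) = l z := by
    intro t z hz
    set τ := θ t with hτ
    have ht : T τ = t := hTθ t
    have dPf : ∀ f : (Fin 3 → ℝ) →ₗ[ℝ] ℝ, HasDerivAt (fun τ => f (P τ)) (f (deriv P τ)) τ :=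
      fun f => (LinearMap.toContinuousLinearMap f).hasFDerivAt.comp_hasDerivAt τ (hnc.d0 τ)
    have fx : x (deriv P τ) = -(w * Real.sin (w * τ)) := by
      have h2 := dPf x
      have e : (fun τ => x (P τ)) = fun τ => Real.cos (w * τ) := funext fun τ => (hsol τ).1
      rw [e] at h2
      refine h2.unique (((Real.hasDerivAt_cos (w * τ)).comp τ
        ((hasDerivAt_id τ).const_mul w)).congr_deriv ?_)
      ring
    have fy : y (deriv P τ) = w * Real.cos (w * τ) := by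
      have h2 := dPf y
      have e : (fun τ => y (P τ)) = fun τ => Real.sin (w * τ) := funext fun τ => (hsol τ).2.1
      rw [e] at h2
      refine h2.unique (((Real.hasDerivAt_sin (w * τ)).comp τ
        ((hasDerivAt_id τ).const_mul w)).congr_deriv ?_)
      ring
    have fl : l (deriv P τ) = 0 := by
      have h2 := dPf l
      have e : (fun τ => l (P τ)) = fun _ => (1 : ℝ) := funext fun τ => (hsol τ).2.2
      rw [e] at h2
      exact h2.unique (hasDerivAt_const τ _)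
    have hz' : D3 (P τ) (deriv P τ) z = 0 := by
      have e1 : deriv P τ = lam τ • (g (T τ) • deriv p (T τ)) + deriv lam τ • p (T τ) := D.dP τ
      have e2 : P τ = lam τ • p (T τ) := rfl
      rw [e1, e2, ht]
      have : D3 (lam τ • p t) (lam τ • (g t • deriv p t) + deriv lam τ • p t) z =
          lam τ ^ 2 * g t * D3 (p t) (deriv p t) z := by
        simp only [D3, Pi.add_apply, Pi.smul_apply, smul_eq_mul]
        ring
      rw [this, hz, mul_zero]
    have hzd : z = D3 z (deriv P τ) (deriv (deriv P) τ) • P τ +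
        D3 (P τ) z (deriv (deriv P) τ) • deriv P τ := by
      funext i
      have := hnc.cramer τ z i
      have hz'' : D3 (P τ) (deriv P τ) z = 0 := hz'
      rw [show D3 ((fun τ => lam τ • q τ) τ) (deriv (fun τ => lam τ • q τ) τ) z = 0 from hz''] at this
      rw [zero_mul, add_zero] at this
      exact this
    have sc := Real.sin_sq_add_cos_sq (w * τ)
    rw [hzd]
    simp only [map_add, map_smul, smul_eq_mul, fx, fy, fl]
    rw [show x (P τ) = Real.cos (w * τ) from (hsol τ).1,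
      show y (P τ) = Real.sin (w * τ) from (hsol τ).2.1, show l (P τ) = 1 from (hsol τ).2.2]
    linear_combination (D3 z (deriv P τ) (deriv (deriv P) τ)) * sc
  refine ⟨x, y, l, hli, fun t => ?_, fun c => (Real.cos (w * s c / 2) ^ 2)⁻¹, ?_⟩
  · have e1 := hx (θ t)
    have e2 := hy (θ t)
    have e3 := hl (θ t)
    have e4 : q (θ t) = p t := by simp only [hq]; rw [hTθ]
    rw [e4] at e1 e2 e3
    have hlam := hl0 (θ t)
    refine ⟨fun h2 => by rw [h2, mul_zero] at e3; exact zero_ne_one e3, ?_⟩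
    have sc := Real.sin_sq_add_cos_sq (w * θ t)
    rw [← e1, ← e2] at sc
    have h3 : lam (θ t) ^ 2 * (x (p t) ^ 2 + y (p t) ^ 2) = lam (θ t) ^ 2 * l (p t) ^ 2 := by
      have : lam (θ t) ^ 2 * l (p t) ^ 2 = 1 := by rw [← mul_pow, e3, one_pow]
      rw [this, ← sc]; ring
    exact mul_left_cancel₀ (pow_ne_zero 2 hlam) h3
  · have hev : ∀ᶠ c in 𝓝[>] (0 : ℝ), 0 < s c ∧ w * s c / 2 < Real.pi / 2 ∧ c < δ := by
      refine hspos.and (Eventually.and ?_ (nhdsWithin_le_nhds (gt_mem_nhds hδ)))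
      have : Tendsto (fun c => w * s c / 2) (𝓝 0) (𝓝 (w * s 0 / 2)) :=
        ((continuous_const.mul hsc).div_const 2).tendsto 0
      rw [s00, mul_zero, zero_div] at this
      exact nhdsWithin_le_nhds (this.eventually (gt_mem_nhds (by positivity)))
    obtain ⟨η, hη, hη2⟩ := (nhdsGT_basis (0 : ℝ)).eventually_iff.mp hev
    refine ⟨η, hη, fun c hc0 hc => ?_⟩
    obtain ⟨k1, k2, k3⟩ := hη2 ⟨hc0, hc⟩
    have hang : 0 < w * s c / 2 := by positivity
    have hsin : 0 < Real.sin (w * s c / 2) :=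
      Real.sin_pos_of_pos_of_lt_pi hang (by linarith [Real.pi_pos])
    have hcos : 0 < Real.cos (w * s c / 2) :=
      Real.cos_pos_of_mem_Ioo ⟨by linarith [Real.pi_pos], k2⟩
    have hcos1 : Real.cos (w * s c / 2) ^ 2 < 1 := by
      have := Real.sin_sq_add_cos_sq (w * s c / 2)
      have : 0 < Real.sin (w * s c / 2) ^ 2 := by positivity
      linarith
    refine ⟨(one_lt_inv₀ (by positivity)).mpr hcos1, fun t z hz hz1 hz2 => ?_⟩
    have t1 := tang t z hz1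
    have t2 := tang (ψ c t) z hz2
    have hθψ : θ (ψ c t) = θ t + s c := D.trans c hc0.le k3 t
    have e : w * (θ (ψ c t) - θ t) / 2 = w * s c / 2 := by rw [hθψ]; ring
    have hpair := tangent_pair t1 t2 (by rw [e]; exact hsin.ne')
    rw [e] at hpair
    refine ⟨fun hl0 => ?_, ?_⟩
    · rw [hl0] at hpair
      have h3 : x z ^ 2 + y z ^ 2 = 0 := by
        rcases mul_eq_zero.mp (hpair.trans (by norm_num)) with h4 | h4
        · exact h4
        · exact absurd h4 (by positivity)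
      have hx0 : x z = 0 := by nlinarith [sq_nonneg (x z), sq_nonneg (y z)]
      have hy0 : y z = 0 := by nlinarith [sq_nonneg (x z), sq_nonneg (y z)]
      exact hz (hker z hx0 hy0 hl0)
    · rw [← hpair]
      field_simp

end Pool.Agent.W5h40.Iso
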