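import Pool.Agent.W5h40.Iso.Concl

set_option autoImplicit false

open Filter Topology Set
open scoped ContDiff

namespace Pool.Agent.W5h40.Iso

/-- A flow parameter for a positive periodic vector field `g` on the circle. -/
theorem exists_param {g : ℝ → ℝ} (hg : ContDiff ℝ ∞ g) (hpos : ∀ t, 0 < g t) {L : ℝ} (hL : 0 < L)
    (hper : ∀ t, g (t + L) = g t) :
    ∃ (θ T : ℝ → ℝ) (Θ : ℝ), 0 < Θ ∧ (∀ t, HasDerivAt θ (g t)⁻¹ t) ∧
      (∀ s, HasDerivAt T (g (T s)) s) ∧ ContDiff ℝ ∞ T ∧ (∀ t, T (θ t) = t) ∧ (∀ s, θ (T s) = s) ∧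
      ∀ s, T (s + Θ) = T s + L := by
  have hgi : Continuous (fun t => (g t)⁻¹) := hg.continuous.inv₀ fun t => (hpos t).ne'
  set θ : ℝ → ℝ := fun t => ∫ u in (0 : ℝ)..t, (g u)⁻¹ with hθ
  have dθ : ∀ t, HasDerivAt θ (g t)⁻¹ t := fun t =>
    intervalIntegral.integral_hasDerivAt_right (hgi.intervalIntegrable _ _)
      (hgi.stronglyMeasurableAtFilter _ _) hgi.continuousAt
  have hmono : StrictMono θ := strictMono_of_deriv_pos fun t => by
    rw [(dθ t).deriv]; exact inv_pos.mpr (hpos t)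
  have hθ0 : θ 0 = 0 := by simp [hθ]
  have hcont : Continuous θ := continuous_iff_continuousAt.mpr fun t => (dθ t).continuousAt
  set Θ := θ L with hΘ
  have hΘp : 0 < Θ := by
    have := hmono hL
    rw [hθ0] at this
    exact this
  have hadd : ∀ t, θ (t + L) = θ t + Θ := by
    have hd : ∀ t, HasDerivAt (fun t => θ (t + L) - θ t) 0 t := fun t => by
      refine (((dθ (t + L)).comp_add_const t L).sub (dθ t)).congr_deriv ?_
      rw [hper, sub_self]
    intro t
    have := is_const_of_deriv_eq_zero (fun t => (hd t).differentiableAt) (fun t => (hd t).deriv) t 0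
    simp only [zero_add, hθ0] at this
    linarith
  have hnat : ∀ (n : ℕ) t, θ (t + n * L) = θ t + n * Θ := by
    intro n t
    induction n with
    | zero => simp
    | succ n ih =>
      rw [show t + (n + 1 : ℕ) * L = t + n * L + L by push_cast; ring, hadd, ih]
      push_cast; ring
  have hsurj : Function.Surjective θ := by
    intro y
    obtain ⟨n, hn⟩ := exists_nat_gt (|y| / Θ)
    rw [div_lt_iff₀ hΘp] at hn
    have h1 : θ (n * L) = n * Θ := by
      have := hnat n 0
      rwa [zero_add, hθ0, zero_add] at this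
    have h2 : θ (-(n * L)) = -(n * Θ) := by
      have := hnat n (-(n * L))
      rw [neg_add_cancel, hθ0] at this
      linarith
    have hy := abs_le.mp hn.le
    have hle : -(n * L) ≤ (n * L : ℝ) := by
      have : (0 : ℝ) ≤ n * L := by positivity
      linarith
    obtain ⟨x, -, hx⟩ := intermediate_value_Icc hle hcont.continuousOn
      (show y ∈ Icc (θ (-(n * L))) (θ (n * L)) by rw [h1, h2]; exact ⟨hy.1, hy.2⟩)
    exact ⟨x, hx⟩
  set e := hmono.orderIsoOfSurjective θ hsurj with he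
  set T : ℝ → ℝ := fun s => e.symm s with hT
  have hTθ : ∀ t, T (θ t) = t := fun t => by
    have : e t = θ t := rfl
    rw [← this]; exact e.symm_apply_apply t
  have hθT : ∀ s, θ (T s) = s := fun s => by
    have : e (T s) = θ (T s) := rfl
    rw [← this]; exact e.apply_symm_apply s
  have hTc : Continuous T := e.symm.continuous
  have dT : ∀ s, HasDerivAt T (g (T s)) s := fun s => by
    have := HasDerivAt.of_local_left_inverse hTc.continuousAt (dθ (T s))
      (inv_ne_zero (hpos _).ne') (Eventually.of_forall hθT)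
    rwa [inv_inv] at this
  have hTs : ContDiff ℝ ∞ T := by
    rw [contDiff_infty]
    intro n
    induction n with
    | zero => exact contDiff_zero.mpr hTc
    | succ n ih =>
      rw [show ((n + 1 : ℕ) : WithTop ℕ∞) = (n : WithTop ℕ∞) + 1 by push_cast; rfl,
        contDiff_succ_iff_deriv]
      refine ⟨fun s => (dT s).differentiableAt, fun h => ?_, ?_⟩
      · exact absurd h (by simp)
      · have : deriv T = fun s => g (T s) := funext fun s => (dT s).deriv
        rw [this]
        exact (hg.of_le (mod_cast le_top)).comp ih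
  refine ⟨θ, T, Θ, hΘp, dθ, dT, hTs, hTθ, hθT, fun s => ?_⟩
  apply hmono.injective
  rw [hθT, hadd, hθT]

/-- Commuting tangent maps are translations in the flow parameter. -/
theorem translation {ψ : ℝ → ℝ → ℝ} (hψ : ContDiff ℝ ∞ (fun x : ℝ × ℝ => ψ x.1 x.2))
    (h0 : ∀ t, ψ 0 t = t) {g θ : ℝ → ℝ} (hg : ∀ t, HasDerivAt (fun c => ψ c t) (g t) 0)
    (hpos : ∀ t, 0 < g t) (dθ : ∀ t, HasDerivAt θ (g t)⁻¹ t) {δ : ℝ} (hδ : 0 < δ)
    (hcomm : ∀ c d t, 0 ≤ c → c < δ → 0 ≤ d → d < δ → ψ c (ψ d t) = ψ d (ψ c t))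
    {c : ℝ} (hc0 : 0 ≤ c) (hc : c < δ) (t : ℝ) :
    θ (ψ c t) - θ t = θ (ψ c 0) - θ 0 := by
  have dt : ∀ t, HasDerivAt (ψ c) (deriv (ψ c) t) t := fun t => by
    have : ContDiff ℝ ∞ (ψ c) := hψ.comp (contDiff_const.prodMk contDiff_id)
    exact (this.differentiable (by simp) t).hasDerivAt
  have key : ∀ t, deriv (ψ c) t * g t = g (ψ c t) := by
    intro t
    have h1 : HasDerivAt (fun d => ψ c (ψ d t)) (deriv (ψ c) t * g t) 0 := by
      have e1 : HasDerivAt (ψ c) (deriv (ψ c) t) (ψ 0 t) := by rw [h0]; exact dt t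
      exact e1.comp 0 (hg t)
    have h2 := hg (ψ c t)
    have h3 : HasDerivWithinAt (fun d => ψ c (ψ d t)) (g (ψ c t)) (Ici 0) 0 := by
      refine h2.hasDerivWithinAt.congr_of_eventuallyEq ?_ (hcomm c 0 t hc0 hc le_rfl hδ)
      filter_upwards [self_mem_nhdsWithin, nhdsWithin_le_nhds (gt_mem_nhds hδ)] with d hd1 hd2
      exact hcomm c d t hc0 hc hd1 hd2
    exact (uniqueDiffOn_Ici (0 : ℝ) 0 self_mem_Ici).eq_deriv _ h1.hasDerivWithinAt h3
  have hd : ∀ t, HasDerivAt (fun t => θ (ψ c t) - θ t) 0 t := fun t => by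
    refine (((dθ (ψ c t)).comp t (dt t)).sub (dθ t)).congr_deriv ?_
    rw [← key t]
    have h1 : deriv (ψ c) t ≠ 0 := fun h0 => by
      have := key t
      rw [h0, zero_mul] at this
      exact (hpos _).ne this
    have h2 := (hpos t).ne'
    field_simp
    ring
  exact is_const_of_deriv_eq_zero (fun t => (hd t).differentiableAt) (fun t => (hd t).deriv) t 0

end Pool.Agent.W5h40.Iso
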